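import Mathlib

set_option autoImplicit false

namespace Pool.Agent.W968

open Encodable
open Nat.Partrec (Code)

/-- The universal conditional machine. -/
def UM {α β : Type*} [Primcodable α] [Primcodable β] (q : List Bool) (y : α) : Part β :=
  (Code.eval (Denumerable.ofNat Code (q.idxOf false)) (encode (q.drop (q.idxOf false + 1), y))).bind
    fun n => ((decode n : Option β) : Part β)

theorem UM_partrec {α β : Type*} [Primcodable α] [Primcodable β] :
    Partrec₂ (UM : List Bool → (α →. β)) := by
  have hi : Primrec fun a : List Bool × α => a.1.idxOf false :=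
    Primrec.list_idxOf.comp (Primrec.const false) (Primrec.fst)
  have h1 : Computable fun a : List Bool × α => Denumerable.ofNat Code (a.1.idxOf false) :=
    ((Primrec.ofNat Code).comp hi).to_comp
  have hd : Primrec fun a : List Bool × α => a.1.drop (a.1.idxOf false + 1) :=
    Primrec.list_drop.comp (Primrec.succ.comp hi) Primrec.fst
  have h2 : Computable fun a : List Bool × α => encode (a.1.drop (a.1.idxOf false + 1), a.2) :=
    (Primrec.encode.comp (Primrec.pair hd Primrec.snd)).to_comp
  have h3 : Partrec fun a : List Bool × α => Code.eval (Denumerable.ofNat Code (a.1.idxOf false))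
      (encode (a.1.drop (a.1.idxOf false + 1), a.2)) := Code.eval_part.comp h1 h2
  exact Partrec.bind h3 (Computable.ofOption (Computable.decode.comp Computable.snd))

theorem UM_opt {α β : Type*} [Primcodable α] [Primcodable β] (M : List Bool → (α →. β))
    (hM : Partrec₂ M) : ∃ c : ℕ, ∀ (p : List Bool) (y : α) (z : β), z ∈ M p y →
      ∃ q : List Bool, q.length ≤ p.length + c ∧ z ∈ (UM q y : Part β) := by
  obtain ⟨c, hc⟩ := Code.exists_code.1 hM
  refine ⟨encode c + 1, fun p y z hz => ⟨List.replicate (encode c) true ++ false :: p, ?_, ?_⟩⟩
  · simp; omega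
  · have h1 : (List.replicate (encode c) true ++ false :: p).idxOf false = encode c := by
      rw [List.idxOf_append_of_notMem (by simp)]
      simp
    have h2 : (List.replicate (encode c) true ++ false :: p).drop (encode c + 1) = p := by
      rw [List.drop_append]
      simp
    rw [UM, h1, h2, Denumerable.ofNat_encode, hc]
    simp only [encodek, Part.coe_some, Part.bind_some]
    refine Part.mem_bind_iff.2 ⟨encode z, ?_, by simp⟩
    exact Part.mem_map encode hz

end Pool.Agent.W968
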